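import Pool.Agent.Y881.CS.Stm

/-!
Bogolyubov-Ruzsa relative to a set (helper260).
-/

set_option autoImplicit false

namespace Pool.Agent.Y260.CS

open Finset Pool.Agent.TH858 Pool.Agent.TH858.GP Pool.Agent.Y881.CS
open scoped Pointwise

theorem t_ABS (hSAN : S_SAN) (hCHG : S_CHG) : S_ABS := by
  obtain ⟨C₀, hC₀, hS⟩ := hSAN
  refine ⟨768 * (8 * C₀ + 40) + 2, by linarith, ?_⟩
  intro N _ A X M hA hX hM hAX hAA
  obtain ⟨T, hTX, hT, hXT, hT2⟩ := hS N A X M hA hX hM hAX hAA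
  have hM0 : 0 < M := by linarith
  obtain ⟨ℓ, hℓ⟩ : ∃ ℓ : ℝ, ℓ = Real.log M := ⟨_, rfl⟩
  have hl : 0.69 ≤ ℓ := by
    rw [hℓ]
    have h1 := Real.log_two_gt_d9
    have h2 := Real.log_le_log (by norm_num) hM
    linarith
  have hMe : M = Real.exp ℓ := by rw [hℓ, Real.exp_log hM0]
  have hl4 : 1 / 5 ≤ ℓ ^ 4 := by
    have := pow_le_pow_left₀ (by norm_num : (0 : ℝ) ≤ 0.69) hl 4
    norm_num at this ⊢
    linarith
  have hl3 : ℓ ≤ 4 * ℓ ^ 4 := by
    have := pow_le_pow_left₀ (by norm_num : (0 : ℝ) ≤ 0.69) hl 3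
    have h1 : (1 : ℝ) / 4 ≤ ℓ ^ 3 := by
      norm_num at this ⊢
      linarith
    nlinarith
  rw [← hℓ] at hXT ⊢
  obtain ⟨q, hq⟩ : ∃ q : ℝ, q = C₀ * ℓ ^ 4 := ⟨_, rfl⟩
  have hq0 : 0 ≤ q := by rw [hq]; positivity
  rw [← hq] at hXT
  obtain ⟨Λ, hΛ, hΛ2⟩ := hCHG N X T q hq0 hTX hT hXT
  have hΛc : (Λ.card : ℝ) ≤ (8 * C₀ + 40) * ℓ ^ 4 := by
    rw [hq] at hΛ
    nlinarith
  have hC1 : 0 < 8 * C₀ + 40 := by linarith
  refine ⟨Λ, ?_, ?_⟩
  · refine hΛc.trans ?_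
    apply mul_le_mul_of_nonneg_right _ (by positivity)
    linarith
  intro x hx hcx
  apply hT2 x
  intro γ hγ
  obtain ⟨e, he, he2⟩ := hΛ2 γ hγ
  set r : ZMod N := γ - ∑ l ∈ Λ, (e l : ZMod N) * l with hr
  have hXc : (0 : ℝ) < X.card := by exact_mod_cast hX.card_pos
  -- first part
  have h1 : ‖ψ (r * x) - 1‖ ≤ 1 / (16 * M) := by
    have h2 := shift X r x
    have h3 : Real.exp (-(8 * q + 9)) * X.card * ‖ψ (r * x) - 1‖ ≤
        2 * (Real.exp (-((768 * (8 * C₀ + 40) + 2) * ℓ ^ 4)) * X.card) := by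
      calc _ ≤ ‖∑ y ∈ X, ψ (r * y)‖ * ‖ψ (r * x) - 1‖ :=
            mul_le_mul_of_nonneg_right he2 (norm_nonneg _)
        _ ≤ _ := h2
        _ ≤ _ := by linarith
    have h4 : Real.exp (-(8 * q + 9)) * ‖ψ (r * x) - 1‖ ≤
        2 * Real.exp (-((768 * (8 * C₀ + 40) + 2) * ℓ ^ 4)) := by
      have : (Real.exp (-(8 * q + 9)) * ‖ψ (r * x) - 1‖) * X.card ≤
          (2 * Real.exp (-((768 * (8 * C₀ + 40) + 2) * ℓ ^ 4))) * X.card := by
        linarith
      exact le_of_mul_le_mul_right this hXc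
    have h5 : 2 * Real.exp (-((768 * (8 * C₀ + 40) + 2) * ℓ ^ 4)) ≤
        Real.exp (-(8 * q + 9)) * (1 / (16 * M)) := by
      have h6 : (32 : ℝ) ≤ Real.exp 31 := by
        have := Real.add_one_le_exp (31 : ℝ)
        linarith
      have h7 : Real.exp (-(8 * q + 9)) * (1 / (16 * M)) =
          (1 / 16) * Real.exp (-(8 * q + 9) - ℓ) := by
        rw [hMe, Real.exp_sub]
        field_simp
      have h8 : Real.exp 31 * Real.exp (-((768 * (8 * C₀ + 40) + 2) * ℓ ^ 4)) ≤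
          Real.exp (-(8 * q + 9) - ℓ) := by
        rw [← Real.exp_add]
        apply Real.exp_le_exp.2
        rw [hq]
        have : 0 ≤ C₀ * ℓ ^ 4 := by positivity
        nlinarith
      rw [h7]
      have h9 := mul_le_mul_of_nonneg_right h6
        (Real.exp_pos (-((768 * (8 * C₀ + 40) + 2) * ℓ ^ 4))).le
      linarith
    have h6 := h4.trans h5
    exact le_of_mul_le_mul_left h6 (Real.exp_pos _)
  -- second part
  have h2 : ∑ l ∈ Λ, ‖ψ ((e l : ZMod N) * l * x) - 1‖ ≤ 1 / (16 * M) := by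
    have h3 : ∀ l ∈ Λ, ‖ψ ((e l : ZMod N) * l * x) - 1‖ ≤
        Real.exp (-((768 * (8 * C₀ + 40) + 2) * ℓ)) := by
      intro l hl'
      refine le_trans ?_ (hx l hl')
      have hcase : e l = -1 ∨ e l = 0 ∨ e l = 1 := by
        have := abs_le.1 (he l)
        omega
      rcases hcase with h | h | h
      · rw [h]
        have : ((-1 : ℤ) : ZMod N) * l * x = -(l * x) := by push_cast; ring
        rw [this, norm_ψ_sub_one_neg]
      · rw [h]
        have : ((0 : ℤ) : ZMod N) * l * x = 0 := by push_cast; ring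
        rw [this, ψ_zero, sub_self, norm_zero]
        exact norm_nonneg _
      · rw [h]
        have : ((1 : ℤ) : ZMod N) * l * x = l * x := by push_cast; ring
        rw [this]
    refine (Finset.sum_le_sum h3).trans ?_
    rw [Finset.sum_const, nsmul_eq_mul]
    have h4 : (Λ.card : ℝ) * Real.exp (-((768 * (8 * C₀ + 40) + 2) * ℓ)) ≤
        (8 * C₀ + 40) * ℓ ^ 4 * Real.exp (-((768 * (8 * C₀ + 40) + 2) * ℓ)) :=
      mul_le_mul_of_nonneg_right hΛc (Real.exp_pos _).le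
    refine h4.trans ?_
    have hl0 : 0 ≤ ℓ := by linarith
    have h5 : ℓ ^ 4 ≤ 24 * Real.exp ℓ := by
      have := Real.pow_div_factorial_le_exp ℓ hl0 4
      have e4 : ((Nat.factorial 4 : ℕ) : ℝ) = 24 := by norm_num [Nat.factorial]
      rw [e4, div_le_iff₀ (by norm_num)] at this
      linarith
    have h6 : 384 * (8 * C₀ + 40) ≤ Real.exp (768 * (8 * C₀ + 40) * ℓ) := by
      have := Real.add_one_le_exp (768 * (8 * C₀ + 40) * ℓ)
      nlinarith
    have h7 : (8 * C₀ + 40) * ℓ ^ 4 ≤ (8 * C₀ + 40) * (24 * Real.exp ℓ) :=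
      mul_le_mul_of_nonneg_left h5 hC1.le
    have h8 : Real.exp (-((768 * (8 * C₀ + 40) + 2) * ℓ)) =
        (Real.exp (768 * (8 * C₀ + 40) * ℓ))⁻¹ * (Real.exp ℓ)⁻¹ * (Real.exp ℓ)⁻¹ := by
      rw [← Real.exp_neg, ← Real.exp_neg, ← Real.exp_add, ← Real.exp_add]
      congr 1
      ring
    rw [h8, hMe]
    have hE := Real.exp_pos (768 * (8 * C₀ + 40) * ℓ)
    have hF := Real.exp_pos ℓ
    calc (8 * C₀ + 40) * ℓ ^ 4 * ((Real.exp (768 * (8 * C₀ + 40) * ℓ))⁻¹ * (Real.exp ℓ)⁻¹ *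
          (Real.exp ℓ)⁻¹)
        ≤ (8 * C₀ + 40) * (24 * Real.exp ℓ) * ((Real.exp (768 * (8 * C₀ + 40) * ℓ))⁻¹ *
          (Real.exp ℓ)⁻¹ * (Real.exp ℓ)⁻¹) := mul_le_mul_of_nonneg_right h7 (by positivity)
      _ = (384 * (8 * C₀ + 40)) * (Real.exp (768 * (8 * C₀ + 40) * ℓ))⁻¹ *
          (1 / (16 * Real.exp ℓ)) := by field_simp; ring
      _ ≤ 1 * (1 / (16 * Real.exp ℓ)) := by
          apply mul_le_mul_of_nonneg_right _ (by positivity)
          rw [← div_eq_mul_inv, div_le_one hE]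
          exact h6
      _ = _ := one_mul _
  have h3 : γ * x = r * x + ∑ l ∈ Λ, (e l : ZMod N) * l * x := by
    rw [hr, sub_mul, Finset.sum_mul]
    ring
  rw [h3]
  refine (norm_ψ_sub_one_add _ _).trans ?_
  have h4 := (norm_ψ_sub_one_sum Λ fun l => (e l : ZMod N) * l * x).trans h2
  have h5 : 1 / (8 * M) = 1 / (16 * M) + 1 / (16 * M) := by field_simp; norm_num
  rw [h5]
  exact add_le_add h1 h4

end Pool.Agent.Y260.CS
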